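import Pool.Agent.K1H76.OM.Stm

set_option autoImplicit false

/-! Project OM: absolute convergence of the Dirichlet series of the correction factor. -/

namespace Pool.Agent.K1H25.OM

open Finset Filter Topology
open Pool.Agent.K1H76.OM

theorem three_rpow : (5 / 2 : ℝ) ≤ (3 : ℝ) ^ (9 / 10 : ℝ) := by
  have h1 : (5 / 2 : ℝ) ^ 10 ≤ ((3 : ℝ) ^ (9 / 10 : ℝ)) ^ 10 := by
    rw [← Real.rpow_natCast ((3 : ℝ) ^ (9 / 10 : ℝ)), ← Real.rpow_mul (by norm_num)]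
    have : (9 / 10 : ℝ) * ((10 : ℕ) : ℝ) = ((9 : ℕ) : ℝ) := by norm_num
    rw [this, Real.rpow_natCast]
    norm_num
  exact le_of_pow_le_pow_left₀ (by norm_num) (by positivity) h1

theorem z_le {p : ℕ} (hp : 3 ≤ p) : (p : ℝ) ^ (-(9 / 10) : ℝ) ≤ 2 / 5 := by
  have hp0 : (0 : ℝ) < p := by exact_mod_cast (by omega : 0 < p)
  have h3 : (3 : ℝ) ≤ p := by exact_mod_cast hp
  have h1 : (3 : ℝ) ^ (9 / 10 : ℝ) ≤ (p : ℝ) ^ (9 / 10 : ℝ) :=
    Real.rpow_le_rpow (by norm_num) h3 (by norm_num)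
  rw [Real.rpow_neg hp0.le]
  have h2 : (5 / 2 : ℝ) ≤ (p : ℝ) ^ (9 / 10 : ℝ) := three_rpow.trans h1
  calc ((p : ℝ) ^ (9 / 10 : ℝ))⁻¹ ≤ (5 / 2 : ℝ)⁻¹ := inv_anti₀ (by norm_num) h2
    _ = 2 / 5 := by norm_num

theorem coef_le (k : ℕ) : |(4 / 9 : ℝ) * (-2) ^ k + 2 / 9 + (k + 1) / 3| ≤ 2 ^ k := by
  have h1 : ((k : ℝ) + 1) ≤ 2 ^ k := by
    have := Nat.lt_two_pow_self (n := k)
    exact_mod_cast this
  have h2 : (1 : ℝ) ≤ 2 ^ k := one_le_pow₀ (by norm_num)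
  have h3 : |(4 / 9 : ℝ) * (-2) ^ k| = 4 / 9 * 2 ^ k := by
    rw [abs_mul, abs_pow, abs_neg, abs_of_pos (by norm_num : (0 : ℝ) < 2),
      abs_of_pos (by norm_num : (0 : ℝ) < 4 / 9)]
  have h4 := abs_le.1 h3.le
  rw [abs_le]
  constructor <;> nlinarith [h4.1, h4.2, (Nat.cast_nonneg k : (0 : ℝ) ≤ k)]

theorem t_HS (h : S_HX) : S_HS := by
  obtain ⟨-, hm, h2, hp⟩ := h
  unfold S_HS
  set f : ℕ → ℝ := fun n => |ho n| * (n : ℝ) ^ (-(9 / 10) : ℝ) with hf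
  have f0 : f 0 = 0 := by simp [hf]
  have fnn : ∀ n, 0 ≤ f n := fun n =>
    mul_nonneg (abs_nonneg _) (Real.rpow_nonneg (Nat.cast_nonneg n) _)
  have f1 : f 1 = 1 := by simp [hf, hm.map_one]
  have fmul : ∀ {m n : ℕ}, m.Coprime n → f (m * n) = f m * f n := by
    intro m n hmn
    simp only [hf]
    rw [hm.map_mul_of_coprime hmn, abs_mul, Nat.cast_mul,
      Real.mul_rpow (Nat.cast_nonneg m) (Nat.cast_nonneg n)]
    ring
  have fpow : ∀ p k : ℕ, f (p ^ k) = |ho (p ^ k)| * ((p : ℝ) ^ (-(9 / 10) : ℝ)) ^ k := by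
    intro p k
    simp only [hf]
    congr 1
    rw [Nat.cast_pow, ← Real.rpow_natCast (p : ℝ) k, ← Real.rpow_mul (Nat.cast_nonneg p), mul_comm,
      Real.rpow_mul (Nat.cast_nonneg p), Real.rpow_natCast]
  -- local factors
  have key : ∀ p : ℕ, p.Prime → Summable (fun k => f (p ^ k)) ∧
      ∑' k, f (p ^ k) ≤ 1 + 20 * (p : ℝ) ^ (-(9 / 5) : ℝ) := by
    intro p pp
    rcases eq_or_ne p 2 with rfl | hp2
    · have h0 : ∀ k, k ≠ 0 → f (2 ^ k) = 0 := by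
        intro k hk
        rw [fpow, h2 k (Nat.one_le_iff_ne_zero.2 hk), abs_zero, zero_mul]
      have hs : HasSum (fun k => f (2 ^ k)) (f (2 ^ 0)) := hasSum_single 0 h0
      refine ⟨hs.summable, ?_⟩
      rw [hs.tsum_eq, pow_zero, f1]
      have : (0 : ℝ) ≤ ((2 : ℕ) : ℝ) ^ (-(9 / 5) : ℝ) := Real.rpow_nonneg (Nat.cast_nonneg _) _
      linarith
    · have hp3 : 3 ≤ p := by
        have := pp.two_le
        omega
      set z : ℝ := (p : ℝ) ^ (-(9 / 10) : ℝ) with hz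
      have hz0 : 0 ≤ z := Real.rpow_nonneg (Nat.cast_nonneg _) _
      have hz1 : z ≤ 2 / 5 := z_le hp3
      have hzz : z ^ 2 = (p : ℝ) ^ (-(9 / 5) : ℝ) := by
        rw [hz, ← Real.rpow_natCast, ← Real.rpow_mul (Nat.cast_nonneg p)]
        norm_num
      have hk1 : f (p ^ 1) = 0 := by
        rw [fpow, hp p 1 pp hp2]
        norm_num
      have hk0 : f (p ^ 0) = 1 := by rw [pow_zero, f1]
      have hle : ∀ k, f (p ^ (k + 2)) ≤ (2 * z) ^ 2 * (2 * z) ^ k := by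
        intro k
        rw [fpow, hp p (k + 2) pp hp2]
        calc |4 / 9 * (-2 : ℝ) ^ (k + 2) + 2 / 9 + (((k + 2 : ℕ) : ℝ) + 1) / 3| * z ^ (k + 2)
            ≤ 2 ^ (k + 2) * z ^ (k + 2) :=
              mul_le_mul_of_nonneg_right (coef_le (k + 2)) (pow_nonneg hz0 _)
          _ = (2 * z) ^ 2 * (2 * z) ^ k := by ring
      have hgs : HasSum (fun k => (2 * z) ^ 2 * (2 * z) ^ k) ((2 * z) ^ 2 * (1 - 2 * z)⁻¹) :=
        (hasSum_geometric_of_lt_one (by positivity) (by linarith)).mul_left _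
      have hs2 : Summable (fun k => f (p ^ (k + 2))) :=
        Summable.of_nonneg_of_le (fun k => fnn _) hle hgs.summable
      have hs : Summable (fun k => f (p ^ k)) := (summable_nat_add_iff 2).1 hs2
      refine ⟨hs, ?_⟩
      rw [← hs.sum_add_tsum_nat_add 2]
      rw [Finset.sum_range_succ, Finset.sum_range_succ, Finset.sum_range_zero, hk0, hk1]
      have h5 : ∑' k, f (p ^ (k + 2)) ≤ (2 * z) ^ 2 * (1 - 2 * z)⁻¹ := by
        rw [← hgs.tsum_eq]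
        exact hs2.tsum_le_tsum hle hgs.summable
      have h6 : (1 - 2 * z)⁻¹ ≤ 5 := by
        have : (5 : ℝ)⁻¹ ≤ 1 - 2 * z := by norm_num; linarith
        calc (1 - 2 * z)⁻¹ ≤ ((5 : ℝ)⁻¹)⁻¹ := inv_anti₀ (by norm_num) this
          _ = 5 := by norm_num
      have h7 : (2 * z) ^ 2 * (1 - 2 * z)⁻¹ ≤ (2 * z) ^ 2 * 5 :=
        mul_le_mul_of_nonneg_left h6 (by positivity)
      rw [← hzz]
      nlinarith [h5, h7]
  have hsn : Summable (fun n : ℕ => (n : ℝ) ^ (-(9 / 5) : ℝ)) :=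
    Real.summable_nat_rpow.2 (by norm_num)
  refine summable_of_sum_range_le (c := Real.exp (20 * ∑' n : ℕ, (n : ℝ) ^ (-(9 / 5) : ℝ))) fnn ?_
  intro N
  have hE := (EulerProduct.summable_and_hasSum_smoothNumbers_prod_primesBelow_tsum (f := f) f1
    fmul (fun {p} pp => (key p pp).1.norm) N).2
  have h1 : ∑ i ∈ range N, f i = ∑ i ∈ (range N).subtype (· ∈ N.smoothNumbers), f i := by
    rw [Finset.sum_subtype_eq_sum_filter]
    symm
    refine Finset.sum_filter_of_ne ?_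
    intro x hx hfx
    have hx0 : x ≠ 0 := fun h => hfx (by rw [h, f0])
    exact Nat.mem_smoothNumbers_of_lt (Nat.pos_of_ne_zero hx0) (Finset.mem_range.1 hx)
  rw [h1]
  refine (sum_le_hasSum _ (fun i _ => fnn _) hE).trans ?_
  calc ∏ p ∈ N.primesBelow, ∑' n, f (p ^ n)
      ≤ ∏ p ∈ N.primesBelow, Real.exp (20 * (p : ℝ) ^ (-(9 / 5) : ℝ)) := by
        refine Finset.prod_le_prod (fun p _ => tsum_nonneg fun n => fnn _) fun p hpN => ?_
        refine (key p (Nat.prime_of_mem_primesBelow hpN)).2.trans ?_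
        rw [add_comm]
        exact Real.add_one_le_exp _
    _ = Real.exp (∑ p ∈ N.primesBelow, 20 * (p : ℝ) ^ (-(9 / 5) : ℝ)) := (Real.exp_sum _ _).symm
    _ ≤ Real.exp (20 * ∑' n : ℕ, (n : ℝ) ^ (-(9 / 5) : ℝ)) := by
        refine Real.exp_le_exp.2 ?_
        rw [← Finset.mul_sum]
        refine mul_le_mul_of_nonneg_left ?_ (by norm_num)
        exact hsn.sum_le_tsum _ fun n _ => Real.rpow_nonneg (Nat.cast_nonneg n) _

end Pool.Agent.K1H25.OM
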